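import Pool.Agent.Y560.TQ.Drd

/-!
Project TQ: D-relations are represented by median trees: the points of the tree are the cones of
the associated C-relation at `0`.
-/

set_option autoImplicit false

namespace Pool.Agent.Y70.TQ

open Pool.Agent.Y560.TQ

theorem mtr_of {M : Type} [PartialOrder M] (J : M → M → M) (h1 : ∀ a b, a ≤ J a b)
    (h2 : ∀ a b, b ≤ J a b) (h3 : ∀ a b c, a ≤ c → b ≤ c → J a b ≤ c)
    (h4 : ∀ a b c : M, c ≤ a → c ≤ b → a ≤ b ∨ b ≤ a) :
    Mtr (fun a b c => (a ≤ b ∨ c ≤ b) ∧ b ≤ J a c) := by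
  have hG : ∀ a b c, J a c ≤ J a b ∨ J a c ≤ J b c := by
    intro a b c
    rcases h4 (J a b) (J b c) b (h2 a b) (h1 b c) with h | h
    · exact Or.inr (h3 _ _ _ ((h1 a b).trans h) (h2 b c))
    · exact Or.inl (h3 _ _ _ (h1 a b) ((h2 b c).trans h))
  have hJ : ∀ a b, J a b ≤ J b a := fun a b => h3 _ _ _ (h2 b a) (h1 b a)
  refine ⟨?_, ?_, ?_, ?_, ?_⟩
  · intro a c
    exact ⟨Or.inl le_rfl, h1 a c⟩
  · rintro a b c ⟨h, h'⟩
    exact ⟨h.symm, h'.trans (hJ a c)⟩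
  · rintro a b c ⟨h, h'⟩ ⟨k, k'⟩
    rcases h with h | h
    · rcases k with k | k
      · rcases h4 b c a h k with e | e
        · exact le_antisymm e (k'.trans (h3 _ _ _ h le_rfl))
        · exact le_antisymm (h'.trans (h3 _ _ _ k le_rfl)) e
      · exact le_antisymm k (k'.trans (h3 _ _ _ h le_rfl))
    · rcases k with k | k
      · exact le_antisymm (h'.trans (h3 _ _ _ k le_rfl)) h
      · exact le_antisymm k h
  · rintro a b c d ⟨h, h'⟩
    have hlast : b ≤ d → a ≤ d → c ≤ d → ((a ≤ d ∨ b ≤ d) ∧ d ≤ J a b) ∨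
        ((b ≤ d ∨ c ≤ d) ∧ d ≤ J b c) := by
      intro e1 e2 e3
      rcases hG a b c with g | g
      · exact Or.inl ⟨Or.inr e1, h'.trans g⟩
      · exact Or.inr ⟨Or.inl e1, h'.trans g⟩
    rcases h with h | h
    · rcases h4 d (J a b) a h (h1 a b) with g | g
      · exact Or.inl ⟨Or.inl h, g⟩
      · have hb : b ≤ d := (h2 a b).trans g
        rcases h4 d (J b c) b hb (h1 b c) with g' | g'
        · exact Or.inr ⟨Or.inl hb, g'⟩
        · exact hlast hb h ((h2 b c).trans g')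
    · rcases h4 d (J b c) c h (h2 b c) with g | g
      · exact Or.inr ⟨Or.inr h, g⟩
      · have hb : b ≤ d := (h1 b c).trans g
        rcases h4 d (J a b) b hb (h2 a b) with g' | g'
        · exact Or.inl ⟨Or.inr hb, g'⟩
        · exact hlast hb ((h1 a b).trans g') h
  · intro a b c
    have key : ∃ m, (m = J a b ∨ m = J b c ∨ m = J a c) ∧ m ≤ J a b ∧ m ≤ J b c ∧ m ≤ J a c := by
      rcases h4 (J a b) (J b c) b (h2 a b) (h1 b c) with g | g
      · rcases h4 (J a b) (J a c) a (h1 a b) (h1 a c) with g' | g'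
        · exact ⟨J a b, Or.inl rfl, le_rfl, g, g'⟩
        · exact ⟨J a c, Or.inr (Or.inr rfl), g', g'.trans g, le_rfl⟩
      · rcases h4 (J b c) (J a c) c (h2 b c) (h2 a c) with g' | g'
        · exact ⟨J b c, Or.inr (Or.inl rfl), g, le_rfl, g'⟩
        · exact ⟨J a c, Or.inr (Or.inr rfl), g'.trans g, g', le_rfl⟩
    obtain ⟨m, hm, m1, m2, m3⟩ := key
    rcases hm with rfl | rfl | rfl
    · exact ⟨_, ⟨Or.inl (h1 a b), m1⟩, ⟨Or.inl (h2 a b), m2⟩, ⟨Or.inl (h1 a b), m3⟩⟩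
    · exact ⟨_, ⟨Or.inr (h1 b c), m1⟩, ⟨Or.inl (h1 b c), m2⟩, ⟨Or.inr (h2 b c), m3⟩⟩
    · exact ⟨_, ⟨Or.inl (h1 a c), m1⟩, ⟨Or.inr (h2 a c), m2⟩, ⟨Or.inl (h1 a c), m3⟩⟩

section
variable {D : ℕ → ℕ → ℕ → ℕ → Prop} (hD : DR D)
include hD

theorem no_common (a b d : ℕ) : ¬ D a b a d := by
  have h0 : ∀ d, ¬ D a a a d := fun d h => hD.excl _ _ _ _ h h
  intro h
  by_cases hb : b = a
  · rw [hb] at h
    exact h0 d h
  by_cases hd : d = a
  · rw [hd] at h
    exact h0 b (hD.comm _ _ _ _ h)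
  · exact hD.excl _ _ _ _ h (hD.comm _ _ _ _ (hD.pair _ _ _ hb hd))

/-- the cones -/
def KK (D : ℕ → ℕ → ℕ → ℕ → Prop) (x y : ℕ) : Set ℕ := {z | ¬ D 0 z x y}

theorem swap2 {a b c d : ℕ} (h : D a b c d) : D a b d c :=
  hD.comm _ _ _ _ (hD.swap _ _ _ _ (hD.comm _ _ _ _ h))

theorem k_left (x y : ℕ) : x ∈ KK D x y := by
  intro h
  exact no_common hD x 0 y (hD.swap _ _ _ _ h)

theorem k_symm (x y : ℕ) : KK D x y = KK D y x := by
  ext z
  exact not_congr ⟨swap2 hD, swap2 hD⟩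

theorem k_right (x y : ℕ) : y ∈ KK D x y := by
  rw [k_symm hD]
  exact k_left hD y x

theorem c3 {a b c : ℕ} (d : ℕ) (h : D 0 a b c) : D 0 a d c ∨ D 0 d b c := by
  rcases hD.split _ _ _ _ d (hD.comm _ _ _ _ h) with h1 | h1
  · exact Or.inl (hD.comm _ _ _ _ h1)
  · exact Or.inr (hD.comm _ _ _ _ h1)

/-- the least member of the family containing `x` and `y` -/
theorem k_min {x y z w : ℕ} (hx : x ∈ KK D z w) (hy : y ∈ KK D z w) : KK D x y ⊆ KK D z w := by
  intro u hu hu'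
  have h1 : D 0 u x w := (c3 hD x hu').resolve_right hx
  have h2 : D 0 u y w := (c3 hD y hu').resolve_right hy
  have h3 : D 0 y w x := (c3 hD y (swap2 hD h1)).resolve_left fun h => hu (swap2 hD h)
  have h4 : D 0 x w y := (c3 hD x (swap2 hD h2)).resolve_left hu
  exact hD.excl _ _ _ _ (swap2 hD h3) (swap2 hD h4)

theorem k_lam {x y z w t : ℕ} (ht : t ∈ KK D x y) (ht' : t ∈ KK D z w) :
    KK D x y ⊆ KK D z w ∨ KK D z w ⊆ KK D x y := by
  by_contra hcon
  push Not at hcon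
  obtain ⟨h1, h2⟩ := hcon
  obtain ⟨u, hu, hu'⟩ := Set.not_subset.1 h1
  obtain ⟨v, hv, hv'⟩ := Set.not_subset.1 h2
  have h3 : v ∉ KK D t u := fun h => hv' (k_min hD ht hu h)
  have h4 : u ∉ KK D t v := fun h => hu' (k_min hD ht' hv h)
  have h5 : D 0 v t u := not_not.1 h3
  have h6 : D 0 u t v := not_not.1 h4
  exact hD.excl _ _ _ _ (swap2 hD h5) (swap2 hD h6)

theorem k_self {x z : ℕ} (hx : x ≠ 0) (hz : z ∈ KK D x x) : z = x := by
  by_contra h
  exact hz (hD.pair _ _ _ hx.symm h)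

theorem k_zero (x : ℕ) : KK D 0 x = Set.univ :=
  Set.eq_univ_of_forall fun z h => no_common hD 0 z x h

theorem d_iff (a b c d : ℕ) : D a b c d ↔
    (a ∉ KK D c d ∧ b ∉ KK D c d) ∨ (c ∉ KK D a b ∧ d ∉ KK D a b) := by
  have hn : ∀ x y z : ℕ, x ∉ KK D y z ↔ D 0 x y z := fun x y z => not_not
  simp only [hn]
  have back : ∀ a b c d : ℕ, D 0 a c d → D 0 b c d → D a b c d := by
    intro a b c d h1 h2
    rcases hD.split _ _ _ _ b h1 with h3 | h3
    · exact hD.swap _ _ _ _ h3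
    · rcases hD.split _ _ _ _ a h2 with h4 | h4
      · exact h4
      · exact absurd (swap2 hD h4) (hD.excl _ _ _ _ (swap2 hD h3))
  have forth : ∀ a b c d : ℕ, D a b c d → D 0 b c d ∨ D 0 c a b := by
    intro a b c d h
    rcases hD.split _ _ _ _ 0 h with h1 | h1
    · exact Or.inl h1
    · exact Or.inr (hD.comm _ _ _ _ (swap2 hD h1))
  constructor
  · intro h
    have e1 := forth a b c d h
    have e2 : D 0 a c d ∨ D 0 c a b := by
      rcases forth b a c d (hD.swap _ _ _ _ h) with g | g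
      · exact Or.inl g
      · exact Or.inr (swap2 hD g)
    have e3 : D 0 b c d ∨ D 0 d a b := by
      rcases forth a b d c (swap2 hD h) with g | g
      · exact Or.inl (swap2 hD g)
      · exact Or.inr g
    have e4 : D 0 a c d ∨ D 0 d a b := by
      rcases forth b a d c (hD.swap _ _ _ _ (swap2 hD h)) with g | g
      · exact Or.inl (swap2 hD g)
      · exact Or.inr (swap2 hD g)
    tauto
  · rintro (⟨h1, h2⟩ | ⟨h1, h2⟩)
    · exact back a b c d h1 h2
    · exact hD.comm _ _ _ _ (back c d a b h1 h2)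

end

/-- the family of the cones -/
def FM (D : ℕ → ℕ → ℕ → ℕ → Prop) : Type := {S : Set ℕ // ∃ x y, S = KK D x y}

instance (D : ℕ → ℕ → ℕ → ℕ → Prop) : PartialOrder (FM D) := Subtype.partialOrder _

theorem t_DRL : S_DRL := by
  intro D hD
  have hle : ∀ S T : FM D, S ≤ T ↔ S.1 ⊆ T.1 := fun S T => Iff.rfl
  have hmin : ∀ (T : FM D) (x y : ℕ), x ∈ T.1 → y ∈ T.1 → KK D x y ⊆ T.1 := by
    rintro ⟨_, z, w, rfl⟩ x y hx hy
    exact k_min hD hx hy
  have hlam : ∀ S T : FM D, ∀ t, t ∈ S.1 → t ∈ T.1 → S ≤ T ∨ T ≤ S := by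
    rintro ⟨_, x, y, rfl⟩ ⟨_, z, w, rfl⟩ t h h'
    exact k_lam hD h h'
  have hex : ∀ S R : FM D, ∃ T : FM D, S ≤ T ∧ R ≤ T ∧ ∀ U : FM D, S ≤ U → R ≤ U → T ≤ U := by
    intro S R
    obtain ⟨x, y, hS⟩ := S.2
    obtain ⟨z, w, hR⟩ := R.2
    have hx : x ∈ S.1 := by rw [hS]; exact k_left hD x y
    have hz : z ∈ R.1 := by rw [hR]; exact k_left hD z w
    rcases hlam S ⟨KK D x z, x, z, rfl⟩ x hx (k_left hD x z) with h1 | h1
    · rcases hlam R ⟨KK D x z, x, z, rfl⟩ z hz (k_right hD x z) with h2 | h2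
      · exact ⟨_, h1, h2, fun U hSU hRU => hmin U x z (hSU hx) (hRU hz)⟩
      · exact ⟨R, h1.trans h2, le_rfl, fun U _ h => h⟩
    · have hz' : z ∈ S.1 := h1 (k_right hD x z)
      rcases hlam S R z hz' hz with h2 | h2
      · exact ⟨R, h2, le_rfl, fun U _ h => h⟩
      · exact ⟨S, le_rfl, h2, fun U h _ => h⟩
  choose J j1 j2 j3 using hex
  have hmtr := mtr_of J j1 j2 j3 (by
    intro a b c h h'
    obtain ⟨x, y, hc⟩ := c.2
    have hx : x ∈ c.1 := by rw [hc]; exact k_left hD x y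
    exact hlam a b x (h hx) (h' hx))
  let e : ℕ → FM D := fun x => ⟨KK D x x, x, x, rfl⟩
  have he : ∀ (x : ℕ) (T : FM D), e x ≤ T ↔ x ∈ T.1 := by
    intro x T
    constructor
    · intro h
      exact h (k_left hD x x)
    · intro h
      exact hmin T x x h h
  have hJ : ∀ a b, (J (e a) (e b)).1 = KK D a b := by
    intro a b
    apply Set.Subset.antisymm
    · exact j3 (e a) (e b) ⟨KK D a b, a, b, rfl⟩ ((he _ _).2 (k_left hD a b))
        ((he _ _).2 (k_right hD a b))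
    · exact hmin _ a b ((he _ _).1 (j1 _ _)) ((he _ _).1 (j2 _ _))
  refine ⟨FM D, _, e, hmtr, ?_, ?_⟩
  · intro a b h
    have h1 : KK D a a = KK D b b := congrArg Subtype.val h
    by_cases ha : a = 0
    · by_cases hb : b = 0
      · rw [ha, hb]
      · have h2 : (0 : ℕ) ∈ KK D b b := by
          rw [← h1, ha]
          exact k_left hD 0 0
        exact absurd (k_self hD hb h2).symm hb
    · have h2 : b ∈ KK D a a := by
        rw [h1]
        exact k_left hD b b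
      exact (k_self hD ha h2).symm
  · intro a b c d
    rw [d_iff hD, not_iff_not.symm]
    rw [not_not]
    have hmeet : meets (fun a b c : FM D => (a ≤ b ∨ c ≤ b) ∧ b ≤ J a c) (e a) (e b) (e c) (e d) ↔
        ∃ T : FM D, ((a ∈ T.1 ∨ b ∈ T.1) ∧ T.1 ⊆ KK D a b) ∧
          ((c ∈ T.1 ∨ d ∈ T.1) ∧ T.1 ⊆ KK D c d) := by
      unfold meets
      refine exists_congr fun T => ?_
      change ((e a ≤ T ∨ e b ≤ T) ∧ T ≤ J (e a) (e b)) ∧
        ((e c ≤ T ∨ e d ≤ T) ∧ T ≤ J (e c) (e d)) ↔ _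
      rw [he, he, he, he, hle, hle, hJ, hJ]
    rw [hmeet]
    constructor
    · intro h
      push Not at h
      obtain ⟨h1, h2⟩ := h
      by_cases ha : a ∈ KK D c d
      · rcases k_lam hD (k_left hD a b) ha with h3 | h3
        · refine ⟨⟨KK D a b, a, b, rfl⟩, ⟨Or.inl (k_left hD a b), Set.Subset.rfl⟩, ?_, h3⟩
          by_contra h4
          push Not at h4
          exact h4.2 (h2 h4.1)
        · exact ⟨⟨KK D c d, c, d, rfl⟩, ⟨Or.inl ha, h3⟩, Or.inl (k_left hD c d), Set.Subset.rfl⟩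
      · have hb := h1 ha
        rcases k_lam hD (k_right hD a b) hb with h3 | h3
        · refine ⟨⟨KK D a b, a, b, rfl⟩, ⟨Or.inl (k_left hD a b), Set.Subset.rfl⟩, ?_, h3⟩
          by_contra h4
          push Not at h4
          exact h4.2 (h2 h4.1)
        · exact ⟨⟨KK D c d, c, d, rfl⟩, ⟨Or.inr hb, h3⟩, Or.inl (k_left hD c d), Set.Subset.rfl⟩
    · rintro ⟨T, ⟨h1, h2⟩, h3, h4⟩ (⟨h5, h6⟩ | ⟨h5, h6⟩)
      · rcases h1 with h1 | h1
        · exact h5 (h4 h1)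
        · exact h6 (h4 h1)
      · rcases h3 with h3 | h3
        · exact h5 (h2 h3)
        · exact h6 (h2 h3)

end Pool.Agent.Y70.TQ
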